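import Pool.Agent.W536.LM.Stm

set_option autoImplicit false

open Polynomial W536.LM

namespace Pool.Agent.W797.LM

theorem det_natDegree {S : Type} [CommRing S] {k : ℕ} (M : Matrix (Fin k) (Fin k) S[X])
    (b : Fin k → ℕ) (h : ∀ i j, (M i j).natDegree ≤ b j) : M.det.natDegree ≤ ∑ j, b j := by
  rw [Matrix.det_apply]
  refine natDegree_sum_le_of_forall_le _ _ fun σ _ => ?_
  refine (natDegree_smul_le _ _).trans ?_
  refine (natDegree_prod_le _ _).trans ?_
  exact Finset.sum_le_sum fun j _ => h _ _

theorem Ep_deg {S : Type} [CommRing S] (L m m' e : S) (k : ℕ) :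
    ((Ep (C L) (C m) (C m') (C e) (X : S[X])).coeff k).natDegree ≤ 2 := by
  have h : (Ep (C L) (C m) (C m') (C e) (X : S[X])).coeff k =
      (if k = 2 then (C m - C L * X : S[X]) else 0) +
      (if k = 1 then (C m' * X + (X - 1) * (C m - C L * X) - C e * X : S[X]) else 0) +
      (if k = 0 then ((X - 1) * C m' * X : S[X]) else 0) := by
    simp only [Ep, coeff_add, coeff_C_mul, coeff_X_pow, coeff_X, coeff_C, mul_ite, mul_one,
      mul_zero]
    congr 2
    simp only [eq_comm]
  rw [h]
  have h2 : (C m - C L * X : S[X]).natDegree ≤ 2 := by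
    compute_degree
    all_goals norm_num
  have h1 : (C m' * X + (X - 1) * (C m - C L * X) - C e * X : S[X]).natDegree ≤ 2 := by
    compute_degree
  have h0 : ((X - 1) * C m' * X : S[X]).natDegree ≤ 2 := by compute_degree
  have hz : (0 : S[X]).natDegree ≤ 2 := by simp
  refine (natDegree_add_le _ _).trans (max_le ((natDegree_add_le _ _).trans (max_le ?_ ?_)) ?_)
  · split_ifs
    · exact h2
    · exact hz
  · split_ifs
    · exact h1
    · exact hz
  · split_ifs
    · exact h0
    · exact hz

theorem t_DEG (hN : S_NAT) : S_DEG := by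
  intro n S _ P w0
  cases n with
  | zero =>
    change (E0 (C P.L) (C (P.m 5)) (C (P.m 0)) (C (P.e 5)) (X : S[X]) (C w0)).natDegree ≤ 2
    unfold E0
    compute_degree
  | succ n =>
    change (resultant (Ep (C P.L) (C (P.m (4 - n))) (C (P.m (5 - n))) (C (P.e (4 - n))) (X : S[X]))
        (G n ((P.map C).map C) X (C (C w0))) 2 (2 ^ (n + 1))).natDegree ≤ 2 ^ (n + 1 + 1)
    have hB : G n ((P.map C).map C) X (C (C w0)) =
        (G n (P.map C) (X : S[X]) (C w0)).map C := by
      have h := hN n S[X] S[X][X] (mapRingHom C) (P.map C) X (C w0)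
      rw [coe_mapRingHom, map_X, map_C] at h
      rw [h]
      congr 1
      unfold Par.map
      simp
    rw [resultant]
    refine (det_natDegree _ (fun j : Fin (2 + 2 ^ (n + 1)) =>
      j.addCases (fun _ => 0) (fun _ => 2)) ?_).trans ?_
    · intro i j
      induction j using Fin.addCases with
      | left j =>
        rw [sylvester, Matrix.of_apply, Fin.addCases_left, Fin.addCases_left, hB]
        split_ifs
        · rw [coeff_map, natDegree_C]
        · simp
      | right j =>
        rw [sylvester, Matrix.of_apply, Fin.addCases_right, Fin.addCases_right]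
        split_ifs
        · exact Ep_deg _ _ _ _ _
        · simp
    · rw [Fin.sum_univ_add]
      simp only [Fin.addCases_left, Fin.addCases_right, Finset.sum_const_zero, zero_add,
        Finset.sum_const, Finset.card_univ, Fintype.card_fin, smul_eq_mul]
      rw [pow_succ 2 (n + 1)]

end Pool.Agent.W797.LM
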